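import Pool.Agent.Y198.EX.Stm

/-!
Project EX (helper198), job EX-D: the completion of `RR D` embeds in the power series ring.
-/

set_option autoImplicit false

namespace Pool.Agent.Y570.EX.D

open Pool.Agent.H42R3.FS PowerSeries Pool.Agent.Y198.EX

variable {p : ℕ} [hp : Fact p.Prime] {D : Dat p}

lemma coeff_of_mem_pow {n : ℕ} {r : RR D} (h : r ∈ (IsLocalRing.maximalIdeal (RR D)) ^ n) :
    ∀ i < n, coeff i (r : PowerSeries D.L) = 0 := by
  have h1 : IsLocalRing.maximalIdeal (RR D) ≤
      Ideal.comap (RR D).subtype (Ideal.span {(X : PowerSeries D.L)}) := by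
    intro f hf
    rw [mem_max_iff] at hf
    rw [Ideal.mem_comap, Ideal.mem_span_singleton, X_dvd_iff]
    simpa using hf
  have h2 : r ∈ Ideal.comap (RR D).subtype ((Ideal.span {(X : PowerSeries D.L)}) ^ n) :=
    Ideal.le_comap_pow _ n (Ideal.pow_right_mono h1 n h)
  rw [Ideal.mem_comap, Ideal.span_singleton_pow, Ideal.mem_span_singleton, X_pow_dvd_iff] at h2
  exact h2

/-- representatives -/
lemma exists_rep (f : AdicCompletion (IsLocalRing.maximalIdeal (RR D)) (RR D)) (n : ℕ) :
    ∃ r : RR D, AdicCompletion.evalₐ (IsLocalRing.maximalIdeal (RR D)) n f =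
      Ideal.Quotient.mk _ r := by
  obtain ⟨r, hr⟩ := Ideal.Quotient.mk_surjective
    (AdicCompletion.evalₐ (IsLocalRing.maximalIdeal (RR D)) n f)
  exact ⟨r, hr.symm⟩

/-- compatibility of representatives -/
lemma rep_compat (f : AdicCompletion (IsLocalRing.maximalIdeal (RR D)) (RR D)) {m n : ℕ}
    (hmn : m ≤ n) {r s : RR D}
    (hr : AdicCompletion.evalₐ (IsLocalRing.maximalIdeal (RR D)) m f = Ideal.Quotient.mk _ r)
    (hs : AdicCompletion.evalₐ (IsLocalRing.maximalIdeal (RR D)) n f = Ideal.Quotient.mk _ s) :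
    ∀ i < m, coeff i (r : PowerSeries D.L) = coeff i (s : PowerSeries D.L) := by
  obtain ⟨a, rfl⟩ := AdicCompletion.mk_surjective _ _ f
  rw [AdicCompletion.evalₐ_mk, Ideal.Quotient.eq] at hr hs
  have h1 := AdicCompletion.Ideal.mk_eq_mk _ hmn a
  rw [Ideal.Quotient.eq] at h1
  have h2 := Ideal.pow_le_pow_right hmn hs
  have h3 : r - s ∈ (IsLocalRing.maximalIdeal (RR D)) ^ m := by
    have e : r - s = (a.val n - s) - (a.val n - a.val m) - (a.val m - r) := by ring
    rw [e]
    exact sub_mem (sub_mem h2 h1) hr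
  intro i hi
  have h4 := coeff_of_mem_pow h3 i hi
  have h5 : ((r - s : RR D) : PowerSeries D.L) = (r : PowerSeries D.L) - (s : PowerSeries D.L) := rfl
  rw [h5, map_sub, sub_eq_zero] at h4
  exact h4

/-- the power series of an element of the completion -/
noncomputable def jf (f : AdicCompletion (IsLocalRing.maximalIdeal (RR D)) (RR D)) :
    PowerSeries D.L :=
  PowerSeries.mk fun i => coeff i ((exists_rep f (i + 1)).choose : PowerSeries D.L)

lemma coeff_jf (f : AdicCompletion (IsLocalRing.maximalIdeal (RR D)) (RR D)) {n : ℕ} {r : RR D}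
    (hr : AdicCompletion.evalₐ (IsLocalRing.maximalIdeal (RR D)) n f = Ideal.Quotient.mk _ r)
    {i : ℕ} (hi : i < n) : coeff i (jf f) = coeff i (r : PowerSeries D.L) := by
  unfold jf
  rw [coeff_mk]
  exact rep_compat f (Nat.succ_le_of_lt hi) (exists_rep f (i + 1)).choose_spec hr i
    (Nat.lt_succ_self i)

lemma jf_algebraMap (r : RR D) :
    jf (algebraMap (RR D) (AdicCompletion (IsLocalRing.maximalIdeal (RR D)) (RR D)) r) =
      (r : PowerSeries D.L) := by
  ext i
  refine coeff_jf _ (n := i + 1) (r := r) ?_ (Nat.lt_succ_self i)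
  rw [AlgHom.commutes]
  rfl

lemma jf_add (f g : AdicCompletion (IsLocalRing.maximalIdeal (RR D)) (RR D)) :
    jf (f + g) = jf f + jf g := by
  ext i
  obtain ⟨r, hr⟩ := exists_rep f (i + 1)
  obtain ⟨s, hs⟩ := exists_rep g (i + 1)
  have h : AdicCompletion.evalₐ (IsLocalRing.maximalIdeal (RR D)) (i + 1) (f + g) =
      Ideal.Quotient.mk _ (r + s) := by rw [map_add, hr, hs, map_add]
  rw [map_add, coeff_jf _ h (Nat.lt_succ_self i), coeff_jf _ hr (Nat.lt_succ_self i),
    coeff_jf _ hs (Nat.lt_succ_self i)]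
  rfl

lemma jf_mul (f g : AdicCompletion (IsLocalRing.maximalIdeal (RR D)) (RR D)) :
    jf (f * g) = jf f * jf g := by
  ext i
  obtain ⟨r, hr⟩ := exists_rep f (i + 1)
  obtain ⟨s, hs⟩ := exists_rep g (i + 1)
  have h : AdicCompletion.evalₐ (IsLocalRing.maximalIdeal (RR D)) (i + 1) (f * g) =
      Ideal.Quotient.mk _ (r * s) := by rw [map_mul, hr, hs, map_mul]
  have h5 : ((r * s : RR D) : PowerSeries D.L) = (r : PowerSeries D.L) * (s : PowerSeries D.L) := rfl
  rw [coeff_jf _ h (Nat.lt_succ_self i), h5, coeff_mul, coeff_mul]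
  refine Finset.sum_congr rfl fun x hx => ?_
  rw [Finset.HasAntidiagonal.mem_antidiagonal] at hx
  rw [coeff_jf _ hr (show x.1 < i + 1 by omega), coeff_jf _ hs (show x.2 < i + 1 by omega)]

/-- the embedding -/
noncomputable def jh (D : Dat p) :
    AdicCompletion (IsLocalRing.maximalIdeal (RR D)) (RR D) →ₐ[RR D] PowerSeries D.L where
  toFun := jf
  map_one' := by
    have h := jf_algebraMap (1 : RR D)
    rw [map_one] at h
    exact h
  map_mul' := jf_mul
  map_zero' := by
    have h := jf_algebraMap (0 : RR D)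
    rw [map_zero] at h
    exact h
  map_add' := jf_add
  commutes' r := jf_algebraMap r

theorem t : stmD := by
  intro p _ D
  refine ⟨jh D, ?_⟩
  rw [injective_iff_map_eq_zero]
  intro f hf
  have hf' : jf f = 0 := hf
  refine AdicCompletion.ext_evalₐ fun n => ?_
  obtain ⟨r, hr⟩ := exists_rep f n
  rw [hr, map_zero, Ideal.Quotient.eq_zero_iff_mem]
  apply mem_max_pow
  intro i hi
  rw [← coeff_jf f hr hi, hf', map_zero]

end Pool.Agent.Y570.EX.D
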